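import Pool.Agent.H3.Evo1

open Pool.Agent.H3.Evo MvPolynomial

namespace Pool.Agent.Results.MP_3301e6_mp.Both

/-- An integrable third-order system of geometric type (`N = 4`, polynomial coefficients) whose
connection has nonzero torsion and nonzero curvature, for both index conventions of `Γ`. -/
theorem result : ∃ (α : Fin 4 → Fin 4 → Fin 4 → Fn 4) (β : Fin 4 → Fin 4 → Fin 4 → Fin 4 → Fn 4),
    IsSymm β ∧ HasOddHierarchy (system α β) ∧ torsion α ≠ 0 ∧ curvature α ≠ 0 ∧
      curvature (fun i j k => α i k j) ≠ 0 := by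
  refine ⟨α0, 0, fun _ _ _ _ => ⟨rfl, rfl⟩, hier, fun h => ?_, fun h => ?_, fun h => ?_⟩
  · simpa [torsion, α0] using congrFun (congrFun (congrFun h 3) 1) 2
  · simpa [curvature, α0, Fin.sum_univ_four] using congrFun (congrFun (congrFun (congrFun h 3) 1) 0) 2
  · simpa [curvature, α0, Fin.sum_univ_four] using congrFun (congrFun (congrFun (congrFun h 3) 2) 0) 1

end Pool.Agent.Results.MP_3301e6_mp.Both
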